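import Pool.Agent.Helper95.AG.Defs

/-! # Project AG: block M4 -/

set_option autoImplicit false
open Real

namespace Pool.Agent.Helper6.AG

theorem cos_lip (x y : ℝ) : |Real.cos x - Real.cos y| ≤ |x - y| := by
  rw [Real.cos_sub_cos, abs_mul, abs_mul, abs_neg, abs_two]
  have h1 : |Real.sin ((x + y) / 2)| ≤ 1 := Real.abs_sin_le_one _
  have h2 : |Real.sin ((x - y) / 2)| ≤ |(x - y) / 2| := Real.abs_sin_le_abs
  rw [abs_div, abs_two] at h2
  have h3 : 0 ≤ |Real.sin ((x - y) / 2)| := abs_nonneg _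
  nlinarith [abs_nonneg (Real.sin ((x + y) / 2))]

/-- **M4**: a good direction far from the zeros: pointwise -/
theorem m4 {a s y c x : ℝ} (ha : 1000000 ≤ |a|) (hs : 0 < s) (hs1 : s ≤ 1 / 1000) (has : 1000 ≤ |a| * s)
    (hy : 20 * s ≤ |Real.cos (2 * π * y)|) (hc : |c| ≤ |a| * s) (hx : |x - y| ≤ s) :
    |a| * (|Real.cos (2 * π * y)| + s) ≤ |2 + 2 * π * a * Real.cos (2 * π * x) - c| := by
  have hpi := Real.pi_gt_d2
  have hpi2 := Real.pi_lt_d2
  have h1 : |Real.cos (2 * π * x) - Real.cos (2 * π * y)| ≤ 2 * π * s := by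
    refine (cos_lip _ _).trans ?_
    rw [← mul_sub, abs_mul, abs_of_pos (by positivity : (0 : ℝ) < 2 * π)]
    exact mul_le_mul_of_nonneg_left hx (by positivity)
  have h2 : |Real.cos (2 * π * y)| - 2 * π * s ≤ |Real.cos (2 * π * x)| := by
    have h3 := abs_sub_abs_le_abs_sub (Real.cos (2 * π * y)) (Real.cos (2 * π * x))
    rw [abs_sub_comm] at h3
    linarith
  have h3 : 2 * π * |a| * |Real.cos (2 * π * x)| = |2 * π * a * Real.cos (2 * π * x)| := by
    rw [abs_mul, abs_mul, abs_of_pos (by positivity : (0 : ℝ) < 2 * π)]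
  have h4 : |2 * π * a * Real.cos (2 * π * x)| ≤ |2 + 2 * π * a * Real.cos (2 * π * x) - c| + (2 + |c|) := by
    have e : 2 * π * a * Real.cos (2 * π * x) = (2 + 2 * π * a * Real.cos (2 * π * x) - c) + (c - 2) := by ring
    calc |2 * π * a * Real.cos (2 * π * x)| = |(2 + 2 * π * a * Real.cos (2 * π * x) - c) + (c - 2)| := by rw [← e]
      _ ≤ |2 + 2 * π * a * Real.cos (2 * π * x) - c| + |c - 2| := abs_add_le _ _
      _ ≤ _ := by
        have := abs_sub c 2
        rw [abs_two] at this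
        linarith
  have ha0 : 0 < |a| := by linarith
  set κ := |Real.cos (2 * π * y)|
  set X := |Real.cos (2 * π * x)|
  -- `2 π |a| X ≥ 2 π |a| (κ - 2 π s)`
  have h5 : 2 * π * |a| * (κ - 2 * π * s) ≤ 2 * π * |a| * X := mul_le_mul_of_nonneg_left h2 (by positivity)
  have h6 : |a| * (20 * s) ≤ |a| * κ := mul_le_mul_of_nonneg_left hy ha0.le
  have h7 : π * π ≤ 10 := by nlinarith
  have h8 : 2 * π * |a| * (2 * π * s) ≤ 40 * (|a| * s) := by
    have : 2 * π * |a| * (2 * π * s) = 4 * (π * π) * (|a| * s) := by ring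
    rw [this]
    have : 0 ≤ |a| * s := by positivity
    nlinarith
  have h9 : 6 * (|a| * κ) ≤ 2 * π * |a| * κ := by
    have : 0 ≤ |a| * κ := by positivity
    have e : 2 * π * |a| * κ = 2 * π * (|a| * κ) := by ring
    rw [e]
    nlinarith
  nlinarith

end Pool.Agent.Helper6.AG
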