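import Pool.Agent.Helper95.AG.Defs
import Pool.Agent.Helper6.AF.Base

/-! # Project AG: the base step along the orbit (block LY') -/

set_option autoImplicit false
open MeasureTheory Real Set Filter Topology
open scoped ENNReal

namespace Pool.Agent.Helper6.AG

open Pool.Agent.Helper95.AF Pool.Agent.Helper6.AF
open Pool.Agent.Helper95.AG (lyr ly)

/-- **LY'**: along the orbit, noise at the time `m` (from `step_ly`) -/
theorem step_orb_of {ε : ℝ} (H : ∃ C A₀ : ℝ, 1 ≤ C ∧ 1 ≤ A₀ ∧ ∀ a s y b E E' : ℝ, A₀ ≤ |a| →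
    s = |a| ^ (ε - 1) →
    ∫⁻ t, lyr ε s (E * (2 + 2 * π * a * Real.cos (2 * π * (y + s * t))) - E') E
      (2 * (y + s * t) + a * Real.sin (2 * π * (y + s * t)) + b) ∂un ≤
      ENNReal.ofReal (C * |a| ^ (-(ε / 16))) * lyr ε s E E' y) :
    ∃ C A₀ : ℝ, 1 ≤ C ∧ 1 ≤ A₀ ∧ ∀ (a s : ℝ) (m : ℕ) (b : ℕ → ℝ)
    (q : ℝ × ℝ), A₀ ≤ |a| → s = |a| ^ (ε - 1) →
    ∫⁻ t, ly ε s a (Function.update b m (b m + s * t)) (m + 1) q ∂un ≤
      ENNReal.ofReal (C * |a| ^ (-(ε / 16))) * ly ε s a b m q := by
  obtain ⟨C, A₀, hC, hA, h⟩ := H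
  refine ⟨C, A₀, hC, hA, fun a s m b q ha hs => ?_⟩
  have h1 := h a s (po a b (m + 1) q).1 (-(po a b m q).1 + b (m + 1)) (pM a b (m + 1) q 0 0) (pM a b m q 0 0) ha hs
  refine (le_of_eq (lintegral_congr fun t => ?_)).trans h1
  have e1 : pM a (Function.update b m (b m + s * t)) (m + 1) q = pM a b (m + 1) q := by
    have h2 : pM a (Function.update b m (b m + s * t)) m q = pM a b m q :=
      pM_congr m (fun j hj => Function.update_of_ne (by omega) _ _) q
    have h3 : po a (Function.update b m (b m + s * t)) m q = po a b m q :=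
      po_congr m (fun j hj => Function.update_of_ne (by omega) _ _) q
    change Pool.Agent.Helper95.AF.mt a (po a _ m q).1 * pM a _ m q = Pool.Agent.Helper95.AF.mt a (po a b m q).1 * pM a b m q
    rw [h2, h3]
  have e2 : (po a (Function.update b m (b m + s * t)) (m + 1 + 1) q).1 =
      2 * ((po a b (m + 1) q).1 + s * t) + a * Real.sin (2 * π * ((po a b (m + 1) q).1 + s * t)) +
        (-(po a b m q).1 + b (m + 1)) := by
    have h2 : po a (Function.update b m (b m + s * t)) m q = po a b m q :=
      po_congr m (fun j hj => Function.update_of_ne (by omega) _ _) q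
    have h3 : (po a (Function.update b m (b m + s * t)) (m + 1) q).2 = (po a b m q).1 := by
      change (po a (Function.update b m (b m + s * t)) m q).1 = _
      rw [h2]
    change 2 * (po a (Function.update b m (b m + s * t)) (m + 1) q).1 - (po a (Function.update b m (b m + s * t)) (m + 1) q).2 +
      a * Real.sin (2 * π * (po a (Function.update b m (b m + s * t)) (m + 1) q).1) +
        Function.update b m (b m + s * t) (m + 1) = _
    rw [h3, po_update, Function.update_of_ne (by omega)]
    ring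
  have e3 : pM a (Function.update b m (b m + s * t)) (m + 1 + 1) q 0 0 =
      pM a b (m + 1) q 0 0 * (2 + 2 * π * a * Real.cos (2 * π * ((po a b (m + 1) q).1 + s * t))) - pM a b m q 0 0 := by
    rw [show m + 1 + 1 = m + 2 from rfl, pM_update]
    ring
  unfold ly
  rw [e1, e2, e3]

end Pool.Agent.Helper6.AG
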