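import Pool.Agent.Helper38.AG.StepLyFin
import Pool.Agent.Helper6.AG.Orb

/-! # Project AG (MP_9ee088_an), block LY': the base step along the orbit -/

set_option autoImplicit false
open MeasureTheory Real Set Filter Topology
open scoped ENNReal

namespace Pool.Agent.Helper6.AG

open Pool.Agent.Helper95.AF
open Pool.Agent.Helper95.AG (lyr ly)

/-- **LY'**: along the orbit, noise at the time `m` -/
theorem step_orb {ε : ℝ} (hε : 0 < ε) (hε1 : ε ≤ 1 / 2) : ∃ C A₀ : ℝ, 1 ≤ C ∧ 1 ≤ A₀ ∧ ∀ (a s : ℝ) (m : ℕ) (b : ℕ → ℝ)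
    (q : ℝ × ℝ), A₀ ≤ |a| → s = |a| ^ (ε - 1) →
    ∫⁻ t, ly ε s a (Function.update b m (b m + s * t)) (m + 1) q ∂un ≤
      ENNReal.ofReal (C * |a| ^ (-(ε / 16))) * ly ε s a b m q :=
  step_orb_of (Pool.Agent.Helper38.AG.step_ly hε hε1)

end Pool.Agent.Helper6.AG
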